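import Pool.Agent.H46.Hart.Sym

/-!
# Hartshorne's conjecture for varieties with a reflection group symmetry and low degree equations

Let `G` be a finite group generated by reflections of `ℂ^(n+1)` with basic invariants
`h_0, …, h_n` of degrees `d_0, …, d_n`.  A nonsingular `G`-stable `X ⊂ P^n` of positive dimension,
on whose cone `G` acts faithfully and whose ideal contains `r = codim X` forms of degree less than
some `d_k` with independent differentials at one point of `X`, is a complete intersection.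

For the symmetric group the degrees are `1, …, n + 1` (`symmetricGroup` below).
-/

open MvPolynomial

namespace H46.Old.ReflectionGroups

/-- The affine cone over the projective zero set of `I`: the common zeros of all `f ∈ I`. -/
def Cone {n : ℕ} (I : Ideal (MvPolynomial (Fin (n + 1)) ℂ)) : Set (Fin (n + 1) → ℂ) :=
  {x | ∀ f ∈ I, eval x f = 0}

/-- The differential of `f` at `x`, as the vector of its partial derivatives. -/
noncomputable def grad {n : ℕ} (f : MvPolynomial (Fin (n + 1)) ℂ) (x : Fin (n + 1) → ℂ) :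
    Fin (n + 1) → ℂ := fun i => eval x (pderiv i f)

/-- `I` is the homogeneous ideal of a nonsingular irreducible closed subvariety of `P^n` of
codimension `r`: a homogeneous prime ideal with `dim ℂ[x₀,…,xₙ]/I = n + 1 - r` whose elements have,
at every nonzero point of the cone, differentials spanning an `r`-dimensional space. -/
structure IsNonsingularVariety (n r : ℕ) (I : Ideal (MvPolynomial (Fin (n + 1)) ℂ)) : Prop where
  prime : I.IsPrime
  homogeneous : ∀ f ∈ I, ∀ d, homogeneousComponent d f ∈ I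
  dim : ringKrullDim (MvPolynomial (Fin (n + 1)) ℂ ⧸ I) + r = n + 1
  nonsingular : ∀ x ∈ Cone I, x ≠ 0 →
    Module.finrank ℂ (Submodule.span ℂ {v | ∃ f ∈ I, grad f x = v}) = r

/-- `f` is invariant under `G`. -/
def IsInvariant {n : ℕ} (G : Subgroup ((Fin (n + 1) → ℂ) ≃ₗ[ℂ] (Fin (n + 1) → ℂ)))
    (f : MvPolynomial (Fin (n + 1)) ℂ) : Prop := ∀ g ∈ G, ∀ x, eval (g x) f = eval x f

/-- `G` is a finite group of linear automorphisms of `ℂ^(n+1)` generated by reflections (elements
`x ↦ x + s(x) v`), and `h_0, …, h_n` are basic invariants of `G`, of degrees `d_0, …, d_n > 0`: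
forms which generate the algebra of `G`-invariant polynomials. -/
structure IsReflectionGroup (n : ℕ) (G : Subgroup ((Fin (n + 1) → ℂ) ≃ₗ[ℂ] (Fin (n + 1) → ℂ)))
    (h : Fin (n + 1) → MvPolynomial (Fin (n + 1)) ℂ) (d : Fin (n + 1) → ℕ) : Prop where
  finite : Finite G
  reflections : G = Subgroup.closure
    {t | t ∈ G ∧ ∃ s v : Fin (n + 1) → ℂ, ∀ x, t x = x + (s ⬝ᵥ x) • v}
  pos : ∀ k, 0 < d k
  homogeneous : ∀ k, (h k).IsHomogeneous (d k)
  generate : ∀ f, IsInvariant G f ↔ f ∈ Algebra.adjoin ℂ (Set.range h)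

theorem result (n r : ℕ) (hr : r < n) (I : Ideal (MvPolynomial (Fin (n + 1)) ℂ))
    (hX : IsNonsingularVariety n r I)
    (G : Subgroup ((Fin (n + 1) → ℂ) ≃ₗ[ℂ] (Fin (n + 1) → ℂ)))
    (h : Fin (n + 1) → MvPolynomial (Fin (n + 1)) ℂ) (d : Fin (n + 1) → ℕ)
    (hG : IsReflectionGroup n G h d)
    (hstable : ∀ g ∈ G, ∀ x ∈ Cone I, g x ∈ Cone I)
    (hfaithful : ∀ g ∈ G, (∀ x ∈ Cone I, g x = x) → g = 1)
    (k : Fin (n + 1)) (f : Fin r → MvPolynomial (Fin (n + 1)) ℂ) (e : Fin r → ℕ)
    (hf : ∀ i, f i ∈ I) (hfe : ∀ i, (f i).IsHomogeneous (e i)) (hlt : ∀ i, e i < d k)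
    (x : Fin (n + 1) → ℂ) (hx : x ∈ Cone I) (hx0 : x ≠ 0)
    (hli : LinearIndependent ℂ (fun i => grad (f i) x)) :
    ∃ (F : Fin r → MvPolynomial (Fin (n + 1)) ℂ) (m : Fin r → ℕ),
      (∀ i, (F i).IsHomogeneous (m i)) ∧ (∀ i, IsInvariant G (F i)) ∧
      I = Ideal.span (Set.range F) ∧
      ∀ y ∈ Cone I, y ≠ 0 → LinearIndependent ℂ (fun i => grad (F i) y) := by
  have hN : ∀ x, Submodule.span ℂ {v | ∃ f ∈ I, grad f x = v} = H89.Hart.N I x := by
    intro x
    apply le_antisymm
    · rw [Submodule.span_le]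
      rintro v ⟨f, hf, rfl⟩
      exact H89.Hart.mem_N.2 ⟨f, hf, rfl⟩
    · intro v hv
      obtain ⟨f, hf, rfl⟩ := H89.Hart.mem_N.1 hv
      exact Submodule.subset_span ⟨f, hf, rfl⟩
  have hS : H89.Hart.Smooth I r :=
    { prime := hX.prime
      homog := hX.homogeneous
      rank := fun x hx hx0 => by rw [← hN]; exact hX.nonsingular x hx hx0 }
  have hR : H46.Hart.RData G h d :=
    { finite := hG.finite
      refl := hG.reflections.le
      pos := hG.pos
      hom := hG.homogeneous
      inv := fun k => (hG.generate (h k)).2 (Algebra.subset_adjoin ⟨k, rfl⟩)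
      gen := fun f hf => (hG.generate f).1 hf }
  have hV : H46.Hart.GVar G I r := { smooth := hS, stable := hstable, faithful := hfaithful }
  have hdim2 : (1 : WithBot ℕ∞) < ringKrullDim (MvPolynomial (Fin (n + 1)) ℂ ⧸ I) := by
    by_contra hcon
    push Not at hcon
    have h1 : ((n : WithBot ℕ∞) + 1) ≤ 1 + r := by
      rw [← hX.dim]
      gcongr
    have h2 : n + 1 ≤ 1 + r := by exact_mod_cast h1
    omega
  have hdim : ringKrullDim (MvPolynomial (Fin (n + 1)) ℂ ⧸ I) + r =
      Fintype.card (Fin (n + 1)) := by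
    rw [hX.dim, Fintype.card_fin]
    push_cast
    rfl
  exact H46.Hart.main hR hV hdim hdim2 k f hf e hfe hlt hx hx0 hli

/-- The case of all permutations of the coordinates: here `d = (1, 2, …, n + 1)`, so it is enough
that the ideal contains `r` forms of degree at most `n` with independent differentials at one
point. -/
theorem symmetricGroup (n r : ℕ) (hr : r < n) (I : Ideal (MvPolynomial (Fin (n + 1)) ℂ))
    (hX : IsNonsingularVariety n r I)
    (hstable : ∀ σ : Equiv.Perm (Fin (n + 1)), ∀ x ∈ Cone I, x ∘ σ ∈ Cone I)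
    (f : Fin r → MvPolynomial (Fin (n + 1)) ℂ) (e : Fin r → ℕ)
    (hf : ∀ i, f i ∈ I) (hfe : ∀ i, (f i).IsHomogeneous (e i)) (hlt : ∀ i, e i ≤ n)
    (x : Fin (n + 1) → ℂ) (hx : x ∈ Cone I) (hx0 : x ≠ 0)
    (hli : LinearIndependent ℂ (fun i => grad (f i) x)) :
    ∃ (F : Fin r → MvPolynomial (Fin (n + 1)) ℂ) (m : Fin r → ℕ),
      (∀ i, (F i).IsHomogeneous (m i)) ∧ (∀ i, (F i).IsSymmetric) ∧
      I = Ideal.span (Set.range F) ∧
      ∀ y ∈ Cone I, y ≠ 0 → LinearIndependent ℂ (fun i => grad (F i) y) := by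
  have hR := H46.Hart.rdata_perm n
  have hN : ∀ x, Submodule.span ℂ {v | ∃ f ∈ I, grad f x = v} = H89.Hart.N I x := by
    intro x
    apply le_antisymm
    · rw [Submodule.span_le]
      rintro v ⟨f, hf, rfl⟩
      exact H89.Hart.mem_N.2 ⟨f, hf, rfl⟩
    · intro v hv
      obtain ⟨f, hf, rfl⟩ := H89.Hart.mem_N.1 hv
      exact Submodule.subset_span ⟨f, hf, rfl⟩
  have hS : H89.Hart.Smooth I r :=
    { prime := hX.prime
      homog := hX.homogeneous
      rank := fun x hx hx0 => by rw [← hN]; exact hX.nonsingular x hx hx0 }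
  have hdim2 : (1 : WithBot ℕ∞) < ringKrullDim (MvPolynomial (Fin (n + 1)) ℂ ⧸ I) := by
    by_contra hcon
    push Not at hcon
    have h1 : ((n : WithBot ℕ∞) + 1) ≤ 1 + r := by
      rw [← hX.dim]
      gcongr
    have h2 : n + 1 ≤ 1 + r := by exact_mod_cast h1
    omega
  have hV := H46.Hart.faithful_perm hS hdim2 hstable
  have hG : IsReflectionGroup n (H46.Hart.permGroup n)
      (fun k : Fin (n + 1) => esymm (Fin (n + 1)) ℂ (k + 1)) (fun k => k + 1) :=
    { finite := hR.finite
      reflections := by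
        apply le_antisymm hR.refl
        rw [Subgroup.closure_le]
        rintro t ⟨ht, -⟩
        exact ht
      pos := hR.pos
      homogeneous := hR.hom
      generate := fun f => by
        refine ⟨hR.gen f, fun hf => ?_⟩
        rw [Algebra.adjoin_range_eq_range_aeval] at hf
        obtain ⟨Q, rfl⟩ := hf
        exact H46.Hart.inv_aeval hR Q }
  obtain ⟨F, m, h1, h2, h3, h4⟩ := result n r hr I hX _ _ _ hG hV.stable hV.faithful
    (Fin.last n) f e hf hfe (fun i => Nat.lt_succ_of_le (by simpa using hlt i)) x hx hx0 hli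
  refine ⟨F, m, h1, fun i σ => ?_, h3, h4⟩
  apply MvPolynomial.funext
  intro y
  have := h2 i _ ⟨σ⁻¹, rfl⟩ y
  rw [H46.Hart.eval_perm, inv_inv] at this
  exact this

end H46.Old.ReflectionGroups
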